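import Pool.Agent.Y294.MB.Inner

/-!
# MP_d967a3_an, Q1: billiard tables of `ℝⁿ`, `n ≥ 3`, other than ellipsoids, whose billiard map has
an invariant hypersurface

The definitions used by the statement (`Euc`, `IsTable`, `IsOuterNormal`, `outerNormal`,
`IsEllipsoid`, `lines`, `lineTangent`, `lineThrough`, `exitPoint`, `billiardMap`,
`IsInvariantHypersurface`) are in `Pool/Agent/H703R3/MBDefs.lean`.

The table is the body of revolution `‖x‖² + x₃⁴ ≤ 1`, and the hypersurface is the set of the
oriented lines meeting its interior with angular momentum `x₁ v₂ - x₂ v₁ = 1/2`.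
-/

set_option autoImplicit false

open Set Filter Topology

namespace Pool.Agent.Results.MP_d967a3_an.InnerHypersurface

open Pool.Agent.H703R3.MB

/-- For every `n ≥ 3` there is a billiard table in `ℝⁿ` (compact convex domain with smooth,
strictly convex boundary) that is not an ellipsoid and whose billiard map has an invariant
hypersurface in the space of the oriented lines meeting the interior. -/
theorem result : ∀ n : ℕ, 3 ≤ n → ∃ Ω : Set (Euc n), IsTable Ω ∧ ¬ IsEllipsoid Ω ∧
    ∃ S : Set (Euc n × Euc n), IsInvariantHypersurface Ω S := Pool.Agent.Y294.MB.q1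

end Pool.Agent.Results.MP_d967a3_an.InnerHypersurface
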